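import Pool.Agent.Run7.h781.DN_INF

set_option autoImplicit false

/-! Project DN (MP_70f7a7_an): lower bound of the measure of the energy surface (bounded kinetic
energy). Uses lemmas of helper781. -/

namespace Run7.h852.DN

open MeasureTheory Set
open Pool.Agent.Y516.NW (E3 Cfg Surf NonW IsFl mom kin pot P2)
open Run7.h781.DN (uu uu_smul pl_castSucc pl_last conf_sub ball_vol V1_pos null_zero fib_sub)

/-- the boxes -/
def TL (k : ℕ) (ε r0 η : ℝ) : Set (Fin (k + 1) → E3) :=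
  Set.pi Set.univ (Fin.cons (Metric.ball (r0 • uu) η)
    (fun i : Fin k => Metric.ball ((4 * ε * ((i : ℝ) + 1)) • uu) ε) : Fin (k + 1) → Set E3)

theorem mem_TL {k : ℕ} {ε r0 η : ℝ} {Q : Fin (k + 1) → E3} (hQ : Q ∈ TL k ε r0 η) :
    ‖Q 0 - r0 • uu‖ < η ∧ ∀ i : Fin k, ‖Q i.succ - (4 * ε * ((i : ℝ) + 1)) • uu‖ < ε := by
  refine ⟨?_, fun i => ?_⟩
  · have := hQ 0 (mem_univ _)
    rw [Fin.cons_zero, Metric.mem_ball, dist_eq_norm] at this
    exact this
  · have := hQ i.succ (mem_univ _)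
    rw [Fin.cons_succ, Metric.mem_ball, dist_eq_norm] at this
    exact this

theorem TL_meas (k : ℕ) (ε r0 η : ℝ) : MeasurableSet (TL k ε r0 η) := by
  apply MeasurableSet.univ_pi
  intro i
  refine Fin.cases ?_ (fun j => ?_) i
  · rw [Fin.cons_zero]; exact measurableSet_ball
  · rw [Fin.cons_succ]; exact measurableSet_ball

theorem TL_vol (k : ℕ) {ε r0 η : ℝ} (hε : 0 < ε) (hη : 0 < η) :
    volume (TL k ε r0 η) = ENNReal.ofReal (η ^ 3) * volume (Metric.ball (0 : E3) 1) *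
      (ENNReal.ofReal (ε ^ 3) * volume (Metric.ball (0 : E3) 1)) ^ k := by
  rw [TL, volume_pi_pi, Fin.prod_univ_succ, Fin.cons_zero, ball_vol _ _ hη]
  congr 1
  simp only [Fin.cons_succ, ball_vol _ _ hε]
  rw [Finset.prod_const, Finset.card_univ, Fintype.card_fin]

theorem TL_zero {k : ℕ} {ε r0 η : ℝ} (hr0 : 0 < r0) {Q : Fin (k + 1) → E3}
    (hQ : Q ∈ TL k ε r0 η) : r0 - η < ‖Q 0‖ ∧ ‖Q 0‖ < r0 + η := by
  have h1 := (mem_TL hQ).1
  have h2 : ‖r0 • uu‖ = r0 := by rw [uu_smul, abs_of_pos hr0]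
  constructor
  · have h3 := norm_sub_norm_le (r0 • uu) (Q 0)
    rw [norm_sub_rev, h2] at h3
    linarith
  · have h3 := norm_sub_norm_le (Q 0) (r0 • uu)
    rw [h2] at h3
    linarith

/-- all positions are close to the centres -/
theorem TL_near {k : ℕ} {ε r0 η : ℝ} (hr0 : 0 < r0) (hε : r0 + η ≤ ε) {Q : Fin (k + 1) → E3}
    (hQ : Q ∈ TL k ε r0 η) (i : Fin (k + 1)) : ‖Q i - (4 * ε * (i : ℝ)) • uu‖ < ε := by
  refine Fin.cases ?_ (fun j => ?_) i
  · have := (TL_zero hr0 hQ).2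
    simp only [Fin.val_zero, Nat.cast_zero, mul_zero, zero_smul, sub_zero]
    linarith
  · have := (mem_TL hQ).2 j
    rw [Fin.val_succ, Nat.cast_add, Nat.cast_one]
    exact this

/-- distances -/
theorem TL_dist {k : ℕ} {ε r0 η : ℝ} (hε : 0 < ε) (hr0 : 0 < r0) (hrε : r0 + η ≤ ε)
    {Q : Fin (k + 1) → E3} (hQ : Q ∈ TL k ε r0 η) :
    (∀ i j : Fin (k + 1), i ≠ j → 2 * ε ≤ ‖Q i - Q j‖) ∧
    (∀ i : Fin (k + 1), i ≠ 0 → 2 * ε ≤ ‖Q i‖) ∧ ∀ i : Fin (k + 1), ‖Q i‖ ≤ 4 * ε * (k + 1) := by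
  have hn := TL_near hr0 hrε hQ
  refine ⟨fun i j hij => ?_, fun i hi => ?_, fun i => ?_⟩
  · have h1 := hn i
    have h2 := hn j
    have h4 : (1 : ℝ) ≤ |(i : ℝ) - (j : ℝ)| := by
      have h5 : (1 : ℤ) ≤ |((i : ℕ) : ℤ) - ((j : ℕ) : ℤ)| := by
        apply Int.one_le_abs
        intro h6
        apply hij
        apply Fin.ext
        omega
      have h7 : ((|((i : ℕ) : ℤ) - ((j : ℕ) : ℤ)| : ℤ) : ℝ) = |(i : ℝ) - (j : ℝ)| := by
        push_cast
        rfl
      rw [← h7]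
      exact_mod_cast h5
    have h3 : ‖(4 * ε * (i : ℝ)) • uu - (4 * ε * (j : ℝ)) • uu‖ ≤
        ‖Q i - (4 * ε * (i : ℝ)) • uu‖ + ‖Q i - Q j‖ + ‖Q j - (4 * ε * (j : ℝ)) • uu‖ := by
      calc ‖(4 * ε * (i : ℝ)) • uu - (4 * ε * (j : ℝ)) • uu‖
          = ‖-(Q i - (4 * ε * (i : ℝ)) • uu) + (Q i - Q j) + (Q j - (4 * ε * (j : ℝ)) • uu)‖ := by
            congr 1; abel
        _ ≤ ‖-(Q i - (4 * ε * (i : ℝ)) • uu) + (Q i - Q j)‖ + ‖Q j - (4 * ε * (j : ℝ)) • uu‖ :=
            norm_add_le _ _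
        _ ≤ ‖-(Q i - (4 * ε * (i : ℝ)) • uu)‖ + ‖Q i - Q j‖ +
            ‖Q j - (4 * ε * (j : ℝ)) • uu‖ := by gcongr; exact norm_add_le _ _
        _ = _ := by rw [norm_neg]
    rw [← sub_smul, uu_smul, ← mul_sub, abs_mul, abs_of_pos (by positivity : 0 < 4 * ε)] at h3
    nlinarith
  · have h1 := hn i
    have h2 : (1 : ℝ) ≤ (i : ℝ) := by
      have : 1 ≤ (i : ℕ) := Nat.one_le_iff_ne_zero.2 fun h => hi (Fin.ext h)
      exact_mod_cast this
    have h3 := norm_sub_norm_le ((4 * ε * (i : ℝ)) • uu) (Q i)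
    rw [norm_sub_rev, uu_smul, abs_of_nonneg (by positivity)] at h3
    nlinarith
  · have h1 := hn i
    have h2 := norm_sub_norm_le (Q i) ((4 * ε * (i : ℝ)) • uu)
    rw [uu_smul, abs_of_nonneg (by positivity)] at h2
    have h3 : (i : ℝ) ≤ k := by
      have := i.2
      exact_mod_cast Nat.lt_succ_iff.1 this
    nlinarith

theorem TL_pair {k : ℕ} {ε r0 η : ℝ} (hε : 0 < ε) (hr0 : 0 < r0) (hrε : r0 + η ≤ ε)
    {Q : Fin (k + 1) → E3} (hQ : Q ∈ TL k ε r0 η) (i j : Fin (k + 1 + 1)) (hij : i ≠ j)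
    (h1 : ¬(i = 0 ∧ j = Fin.last (k + 1))) (h2 : ¬(i = Fin.last (k + 1) ∧ j = 0)) :
    2 * ε ≤ ‖pl Q i - pl Q j‖ := by
  obtain ⟨d1, d2, -⟩ := TL_dist hε hr0 hrε hQ
  revert hij h1 h2
  refine Fin.lastCases ?_ (fun i => ?_) i
  · refine Fin.lastCases ?_ (fun j => ?_) j
    · intro h; exact absurd rfl h
    · intro _ _ h2
      rw [pl_last, pl_castSucc, zero_sub, norm_neg]
      refine d2 j fun h => h2 ⟨rfl, ?_⟩
      rw [h]; rfl
  · refine Fin.lastCases ?_ (fun j => ?_) j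
    · intro _ h1 _
      rw [pl_last, pl_castSucc, sub_zero]
      refine d2 i fun h => h1 ⟨?_, rfl⟩
      rw [h]; rfl
    · intro h _ _
      rw [pl_castSucc, pl_castSucc]
      exact d1 i j fun h' => h (by rw [h'])

theorem ke_two {k : ℕ} {m : Fin (k + 1 + 1) → ℝ} (hm : ∀ i, 0 < m i) (E : ℝ) {ε r0 η : ℝ}
    (hε : 0 < ε) (hr0 : 0 < r0) (hrε : r0 + η ≤ ε) {Q : Fin (k + 1) → E3}
    (hQ : Q ∈ TL k ε r0 η) :
    m 0 * m (Fin.last (k + 1)) / ‖Q 0‖ + E ≤ ke m E Q ∧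
      ke m E Q ≤ m 0 * m (Fin.last (k + 1)) / ‖Q 0‖ + (∑ i, m i) ^ 2 / (4 * ε) + E := by
  classical
  have hd := TL_pair hε hr0 hrε hQ
  have hne : (0 : Fin (k + 1 + 1)) ≠ Fin.last (k + 1) := (Fin.last_pos).ne
  have h0 : pl Q 0 - pl Q (Fin.last (k + 1)) = Q 0 := by
    rw [pl_last, sub_zero]
    exact pl_castSucc Q 0
  have h0' : ‖pl Q (Fin.last (k + 1)) - pl Q 0‖ = ‖Q 0‖ := by rw [norm_sub_rev, h0]
  obtain ⟨t, ht⟩ : ∃ t : Fin (k + 1 + 1) → Fin (k + 1 + 1) → ℝ,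
    t = fun i j => m i * m j / ‖pl Q i - pl Q j‖ / 2 := ⟨_, rfl⟩
  have hpot : pot m (conf m Q) = ∑ i, ∑ j, t i j := by
    unfold pot
    rw [ht]
    refine Finset.sum_congr rfl fun i _ => Finset.sum_congr rfl fun j _ => ?_
    rw [conf_sub]
  have ht0 : ∀ i j, 0 ≤ t i j := fun i j => by
    rw [ht]; have := hm i; have := hm j; positivity
  have e1 : t 0 (Fin.last (k + 1)) = m 0 * m (Fin.last (k + 1)) / ‖Q 0‖ / 2 := by
    rw [ht]; simp only [h0]
  have e2 : t (Fin.last (k + 1)) 0 = m 0 * m (Fin.last (k + 1)) / ‖Q 0‖ / 2 := by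
    rw [ht]; simp only [h0']; ring
  constructor
  · rw [ke, hpot]
    have h1 : ∑ i ∈ ({0, Fin.last (k + 1)} : Finset (Fin (k + 1 + 1))), ∑ j, t i j ≤
        ∑ i, ∑ j, t i j :=
      Finset.sum_le_sum_of_subset_of_nonneg (Finset.subset_univ _)
        fun i _ _ => Finset.sum_nonneg fun j _ => ht0 i j
    rw [Finset.sum_pair hne] at h1
    have h2 : t 0 (Fin.last (k + 1)) ≤ ∑ j, t 0 j :=
      Finset.single_le_sum (f := fun j => t 0 j) (fun j _ => ht0 0 j) (Finset.mem_univ _)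
    have h3 : t (Fin.last (k + 1)) 0 ≤ ∑ j, t (Fin.last (k + 1)) j :=
      Finset.single_le_sum (f := fun j => t (Fin.last (k + 1)) j) (fun j _ => ht0 _ j)
        (Finset.mem_univ _)
    linarith
  · rw [ke, hpot]
    have hb : ∀ i j, t i j ≤ (if i = 0 ∧ j = Fin.last (k + 1) then t 0 (Fin.last (k + 1)) else 0) +
        (if i = Fin.last (k + 1) ∧ j = 0 then t (Fin.last (k + 1)) 0 else 0) +
        m i * m j / (4 * ε) := by
      intro i j
      have hp : 0 ≤ m i * m j / (4 * ε) := by have := hm i; have := hm j; positivity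
      by_cases c1 : i = 0 ∧ j = Fin.last (k + 1)
      · rw [if_pos c1]
        obtain ⟨rfl, rfl⟩ := c1
        have : (0 : ℝ) ≤ if (0 : Fin (k + 1 + 1)) = Fin.last (k + 1) ∧
          Fin.last (k + 1) = (0 : Fin (k + 1 + 1)) then t (Fin.last (k + 1)) 0 else 0 := by
          split_ifs
          · exact ht0 _ _
          · exact le_rfl
        linarith
      · rw [if_neg c1]
        by_cases c2 : i = Fin.last (k + 1) ∧ j = 0
        · rw [if_pos c2]
          obtain ⟨rfl, rfl⟩ := c2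
          linarith
        · rw [if_neg c2]
          by_cases hij : i = j
          · subst hij
            rw [ht]
            simp only [sub_self, norm_zero, div_zero, zero_div, zero_add]
            exact hp
          · have h5 := hd i j hij c1 c2
            rw [ht, zero_add, zero_add]
            simp only
            rw [div_div]
            have := hm i
            have := hm j
            exact div_le_div_of_nonneg_left (by positivity) (by positivity) (by linarith)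
    have h6 : ∑ i, ∑ j, t i j ≤ ∑ i, ∑ j, ((if i = 0 ∧ j = Fin.last (k + 1) then
        t 0 (Fin.last (k + 1)) else 0) + (if i = Fin.last (k + 1) ∧ j = 0 then
        t (Fin.last (k + 1)) 0 else 0) + m i * m j / (4 * ε)) :=
      Finset.sum_le_sum fun i _ => Finset.sum_le_sum fun j _ => hb i j
    refine (add_le_add_left h6 E).trans (le_of_eq ?_)
    simp only [Finset.sum_add_distrib]
    have s1 : ∑ i : Fin (k + 1 + 1), ∑ j : Fin (k + 1 + 1),
        (if i = 0 ∧ j = Fin.last (k + 1) then t 0 (Fin.last (k + 1)) else 0) =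
        t 0 (Fin.last (k + 1)) := by
      rw [Finset.sum_eq_single (0 : Fin (k + 1 + 1))]
      · rw [Finset.sum_eq_single (Fin.last (k + 1))]
        · rw [if_pos ⟨rfl, rfl⟩]
        · intro j _ hj; rw [if_neg fun h => hj h.2]
        · intro h; exact absurd (Finset.mem_univ _) h
      · intro i _ hi
        exact Finset.sum_eq_zero fun j _ => if_neg fun h => hi h.1
      · intro h; exact absurd (Finset.mem_univ _) h
    have s2 : ∑ i : Fin (k + 1 + 1), ∑ j : Fin (k + 1 + 1),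
        (if i = Fin.last (k + 1) ∧ j = 0 then t (Fin.last (k + 1)) 0 else 0) =
        t (Fin.last (k + 1)) 0 := by
      rw [Finset.sum_eq_single (Fin.last (k + 1))]
      · rw [Finset.sum_eq_single (0 : Fin (k + 1 + 1))]
        · rw [if_pos ⟨rfl, rfl⟩]
        · intro j _ hj; rw [if_neg fun h => hj h.2]
        · intro h; exact absurd (Finset.mem_univ _) h
      · intro i _ hi
        exact Finset.sum_eq_zero fun j _ => if_neg fun h => hi h.1
      · intro h; exact absurd (Finset.mem_univ _) h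
    have s3 : ∑ i : Fin (k + 1 + 1), ∑ j : Fin (k + 1 + 1), m i * m j / (4 * ε) =
        (∑ i, m i) ^ 2 / (4 * ε) := by
      rw [sq, Finset.sum_mul_sum, Finset.sum_div]
      exact Finset.sum_congr rfl fun i _ => (Finset.sum_div _ _ _).symm
    rw [s1, s2, s3, e1, e2]
    ring

theorem low : LowStm := by
  intro n hn m hm E hE K0 hK0
  obtain ⟨k, rfl⟩ : ∃ k, n = k + 1 := ⟨n - 1, by omega⟩
  obtain ⟨a, ha⟩ : ∃ a : ℝ, a = m 0 * m (Fin.last (k + 1)) := ⟨_, rfl⟩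
  have ha0 : 0 < a := by
    rw [ha]; have := hm 0; have := hm (Fin.last (k + 1)); positivity
  obtain ⟨L, hL⟩ : ∃ L : ℝ, L = K0 / 2 - E := ⟨_, rfl⟩
  have hL0 : 0 < L := by rw [hL]; linarith
  obtain ⟨r0, hr0d⟩ : ∃ r0 : ℝ, r0 = a / L := ⟨_, rfl⟩
  have hr0 : 0 < r0 := by rw [hr0d]; positivity
  obtain ⟨θ, hθ⟩ : ∃ θ : ℝ, θ = K0 / (4 * L) := ⟨_, rfl⟩
  have hθ0 : 0 < θ := by rw [hθ]; positivity
  have hθ1 : θ ≤ 1 / 2 := by
    rw [hθ, div_le_iff₀ (by positivity)]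
    linarith
  have hθL : θ * L = K0 / 4 := by rw [hθ]; field_simp
  have har : a = r0 * L := by rw [hr0d, div_mul_cancel₀ _ hL0.ne']
  obtain ⟨η, hη⟩ : ∃ η : ℝ, η = θ / 2 * r0 := ⟨_, rfl⟩
  have hη0 : 0 < η := by rw [hη]; positivity
  obtain ⟨M, hM⟩ : ∃ M : ℝ, M = (∑ i, m i) ^ 2 := ⟨_, rfl⟩
  have hM0 : 0 ≤ M := by rw [hM]; positivity
  obtain ⟨v0, hv0⟩ : ∃ v0 : ENNReal, v0 = volume {P : Fin (k + 1) → E3 | kin m (mom P) ≤ 1} :=
    ⟨_, rfl⟩
  have hball := Pool.Agent.Y317.NW.ball (k + 1) m hm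
  have hv0p : v0 ≠ 0 := by
    obtain ⟨R', -, -, h⟩ := hball
    rw [hv0]
    exact h.ne'
  have hv0t : v0 ≠ ⊤ := by
    obtain ⟨R', -, h, -⟩ := hball
    rw [hv0]
    refine ne_top_of_le_ne_top ?_ (measure_mono (t := Metric.closedBall 0 R') fun P hP => ?_)
    · exact measure_closedBall_lt_top.ne
    · rw [mem_closedBall_zero_iff]
      exact h P hP
  obtain ⟨V1, hV1⟩ : ∃ V1 : ENNReal, V1 = volume (Metric.ball (0 : E3) 1) := ⟨_, rfl⟩
  have hV1p : V1 ≠ 0 := by rw [hV1]; exact V1_pos.ne'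
  have hV1t : V1 ≠ ⊤ := by rw [hV1]; exact measure_ball_lt_top.ne
  obtain ⟨b, hb⟩ : ∃ b : ℝ, b = 1 / (8 * ((k : ℝ) + 1)) := ⟨_, rfl⟩
  have hb0 : 0 < b := by rw [hb]; positivity
  obtain ⟨e, he⟩ : ∃ e : ℝ, e = (3 * ((k + 1 : ℕ) : ℝ) - 2) / 2 := ⟨_, rfl⟩
  have he0 : 0 ≤ e := by
    rw [he]
    have : (2 : ℝ) ≤ ((k + 1 : ℕ) : ℝ) := by exact_mod_cast hn
    linarith
  refine ⟨(K0 / 4) ^ e * v0.toReal * (η ^ 3 * V1.toReal * (b ^ 3 * V1.toReal) ^ k),
    max ((r0 + η) / b) (M / (K0 * b)) + 1, ?_, ?_, fun R hR => ?_⟩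
  · have h1 : 0 < v0.toReal := ENNReal.toReal_pos hv0p hv0t
    have h2 : 0 < V1.toReal := ENNReal.toReal_pos hV1p hV1t
    positivity
  · have : 0 ≤ (r0 + η) / b := by positivity
    have := le_max_left ((r0 + η) / b) (M / (K0 * b))
    linarith
  obtain ⟨ε, hε⟩ : ∃ ε : ℝ, ε = b * R := ⟨_, rfl⟩
  have hRp : 0 < R := by
    have : 0 ≤ (r0 + η) / b := by positivity
    have := le_max_left ((r0 + η) / b) (M / (K0 * b))
    linarith
  have hε0 : 0 < ε := by rw [hε]; positivity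
  have hrε : r0 + η ≤ ε := by
    have h1 : (r0 + η) / b ≤ R := by
      have := le_max_left ((r0 + η) / b) (M / (K0 * b))
      linarith
    rw [div_le_iff₀ hb0] at h1
    rw [hε]; linarith
  have hMε : M / (4 * ε) ≤ K0 / 4 := by
    have h1 : M / (K0 * b) ≤ R := by
      have := le_max_right ((r0 + η) / b) (M / (K0 * b))
      linarith
    rw [div_le_iff₀ (by positivity)] at h1
    rw [div_le_iff₀ (by positivity), hε]
    linarith
  have hεR : 4 * ε * (k + 1) = R / 2 := by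
    rw [hε, hb]; field_simp; ring
  -- the kinetic energy
  have hke : ∀ Q ∈ TL k ε r0 η, K0 / 4 ≤ ke m E Q ∧ ke m E Q ≤ K0 := by
    intro Q hQ
    obtain ⟨h1, h2⟩ := ke_two hm E hε0 hr0 hrε hQ
    obtain ⟨h3, h4⟩ := TL_zero hr0 hQ
    rw [← ha] at h1 h2
    rw [← hM] at h2
    have hη' : η < r0 := by rw [hη]; nlinarith
    have hq : 0 < ‖Q 0‖ := by linarith
    constructor
    · have h5 : K0 / 4 - E ≤ a / ‖Q 0‖ := by
        rw [le_div_iff₀ hq]
        have h6 : (K0 / 4 - E) * ‖Q 0‖ ≤ (K0 / 4 - E) * (r0 + η) :=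
          mul_le_mul_of_nonneg_left h4.le (by linarith)
        have h7 : K0 / 4 - E = L * (1 - θ) := by
          rw [mul_sub, mul_one, mul_comm L θ, hθL, hL]; ring
        have h8 : (K0 / 4 - E) * (r0 + η) = L * r0 * ((1 - θ) * (1 + θ / 2)) := by
          rw [h7, hη]; ring
        have h9 : (1 - θ) * (1 + θ / 2) ≤ 1 := by nlinarith
        have h10 : L * r0 * ((1 - θ) * (1 + θ / 2)) ≤ L * r0 * 1 :=
          mul_le_mul_of_nonneg_left h9 (by positivity)
        rw [har]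
        linarith
      linarith
    · have h5 : a / ‖Q 0‖ ≤ 3 * K0 / 4 - E := by
        rw [div_le_iff₀ hq]
        have h6 : (3 * K0 / 4 - E) * (r0 - η) ≤ (3 * K0 / 4 - E) * ‖Q 0‖ :=
          mul_le_mul_of_nonneg_left h3.le (by linarith)
        have h7 : 3 * K0 / 4 - E = L * (1 + θ) := by
          rw [mul_add, mul_one, mul_comm L θ, hθL, hL]; ring
        have h8 : (3 * K0 / 4 - E) * (r0 - η) = L * r0 * ((1 + θ) * (1 - θ / 2)) := by
          rw [h7, hη]; ring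
        have h9 : 1 ≤ (1 + θ) * (1 - θ / 2) := by nlinarith
        have h10 : L * r0 * 1 ≤ L * r0 * ((1 + θ) * (1 - θ / 2)) :=
          mul_le_mul_of_nonneg_left h9 (by positivity)
        rw [har]
        linarith
      linarith
  have hη'' : η < r0 := by rw [hη]; nlinarith
  have hsub : TL k ε r0 η ⊆ RegA m E R ∩ {Q | ke m E Q ≤ K0} := by
    intro Q hQ
    obtain ⟨h1, h2⟩ := hke Q hQ
    obtain ⟨-, -, d3⟩ := TL_dist hε0 hr0 hrε hQ
    have hp : ∀ i, ‖pl Q i‖ ≤ R / 2 := by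
      intro i
      refine Fin.lastCases ?_ (fun i => ?_) i
      · rw [pl_last, norm_zero]; positivity
      · rw [pl_castSucc, ← hεR]; exact d3 i
    refine ⟨⟨fun i j hij h => ?_, fun i j => ?_, by linarith⟩, h2⟩
    · have h0 : pl Q 0 - pl Q (Fin.last (k + 1)) = Q 0 := by
        rw [pl_last, sub_zero]
        exact pl_castSucc Q 0
      have hq : 0 < ‖Q 0‖ := by have := (TL_zero hr0 hQ).1; linarith
      by_cases c1 : i = 0 ∧ j = Fin.last (k + 1)
      · obtain ⟨rfl, rfl⟩ := c1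
        rw [h, sub_self] at h0
        rw [← h0, norm_zero] at hq
        exact lt_irrefl _ hq
      · by_cases c2 : i = Fin.last (k + 1) ∧ j = 0
        · obtain ⟨rfl, rfl⟩ := c2
          rw [h, sub_self] at h0
          rw [← h0, norm_zero] at hq
          exact lt_irrefl _ hq
        · have h5 := TL_pair hε0 hr0 hrε hQ i j hij c1 c2
          rw [h, sub_self, norm_zero] at h5
          linarith
    · have := norm_sub_le (pl Q i) (pl Q j)
      have := hp i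
      have := hp j
      linarith
  have hint : ∀ Q ∈ TL k ε r0 η, ENNReal.ofReal ((K0 / 4) ^ e) * v0 ≤
      ENNReal.ofReal (ke m E Q ^ ((3 * ((k + 1 : ℕ) : ℝ) - 2) / 2)) *
        volume (Fib m E (Surf m E) Q) := by
    intro Q hQ
    obtain ⟨⟨h1, -, h3⟩, -⟩ := hsub hQ
    apply mul_le_mul' (ENNReal.ofReal_le_ofReal ?_) ?_
    · rw [← he]
      exact Real.rpow_le_rpow (by positivity) (hke Q hQ).1 he0
    · rw [hv0, ← measure_sdiff_null (null_zero k)]
      exact measure_mono (fib_sub hm h1 h3)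
  unfold lio
  refine le_trans ?_ (lintegral_mono_set hsub)
  refine le_trans ?_ (setLIntegral_mono' (TL_meas k ε r0 η) hint)
  rw [setLIntegral_const, TL_vol k hε0 hη0, ← hV1]
  apply le_of_eq
  have e0 : v0 = ENNReal.ofReal v0.toReal := (ENNReal.ofReal_toReal hv0t).symm
  have e1 : V1 = ENNReal.ofReal V1.toReal := (ENNReal.ofReal_toReal hV1t).symm
  have p1 : 0 ≤ v0.toReal := ENNReal.toReal_nonneg
  have p2 : 0 ≤ V1.toReal := ENNReal.toReal_nonneg
  have p3 : 0 ≤ (K0 / 4) ^ e := by positivity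
  conv_rhs => rw [e0, e1]
  rw [← ENNReal.ofReal_mul p3, ← ENNReal.ofReal_mul (by positivity : 0 ≤ η ^ 3),
    ← ENNReal.ofReal_mul (by positivity : 0 ≤ ε ^ 3), ← ENNReal.ofReal_pow (by positivity),
    ← ENNReal.ofReal_mul (by positivity), ← ENNReal.ofReal_mul (by positivity)]
  congr 1
  rw [hε, Nat.add_sub_cancel]
  ring

end Run7.h852.DN
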