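import Pool.Agent.Run7.h852.DN.Stm

set_option autoImplicit false

/-! Project DN (MP_70f7a7_an): upper bounds for the Liouville measure of the nonwandering set. -/

namespace Run7.h852.DN

open MeasureTheory Set
open Pool.Agent.Y516.NW (E3 Cfg Surf NonW IsFl mom kin pot P2)

variable {n : ℕ}

theorem pl_cont (i : Fin (n + 1)) : Continuous fun Q : Fin n → E3 => pl Q i := by
  unfold pl
  refine Fin.lastCases ?_ (fun k => ?_) i
  · simp only [Fin.snoc_last]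
    exact continuous_const
  · simp only [Fin.snoc_castSucc]
    exact continuous_apply k

theorem dif_cont (i j : Fin (n + 1)) : Continuous fun Q : Fin n → E3 => pl Q i - pl Q j :=
  (pl_cont i).sub (pl_cont j)

theorem conf_sub (m : Fin (n + 1) → ℝ) (Q : Fin n → E3) (i j : Fin (n + 1)) :
    conf m Q i - conf m Q j = pl Q i - pl Q j := by
  unfold conf
  abel

theorem ke_meas (m : Fin (n + 1) → ℝ) (E : ℝ) : Measurable fun Q : Fin n → E3 => ke m E Q := by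
  unfold ke pot
  refine Measurable.add_const ?_ E
  refine Finset.measurable_fun_sum _ fun i _ => Finset.measurable_fun_sum _ fun j _ => ?_
  refine Measurable.div_const ?_ 2
  refine Measurable.const_div ?_ _
  have : (fun Q : Fin n → E3 => ‖conf m Q i - conf m Q j‖) =
      fun Q : Fin n → E3 => ‖pl Q i - pl Q j‖ := by
    funext Q
    rw [conf_sub]
  rw [this]
  exact (dif_cont i j).norm.measurable

theorem regA_meas (m : Fin (n + 1) → ℝ) (E R : ℝ) : MeasurableSet (RegA m E R) := by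
  have e : RegA m E R = (⋂ i : Fin (n + 1), ⋂ j : Fin (n + 1), {Q | i ≠ j → pl Q i ≠ pl Q j}) ∩
      (⋂ i : Fin (n + 1), ⋂ j : Fin (n + 1), {Q | ‖pl Q i - pl Q j‖ ≤ R}) ∩
      {Q | 0 < ke m E Q} := by
    ext Q
    simp only [RegA, mem_setOf_eq, mem_inter_iff, mem_iInter, and_assoc]
  rw [e]
  refine (MeasurableSet.inter ?_ ?_).inter (measurableSet_lt measurable_const (ke_meas m E))
  · refine MeasurableSet.iInter fun i => MeasurableSet.iInter fun j => ?_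
    by_cases h : i = j
    · have : {Q : Fin n → E3 | i ≠ j → pl Q i ≠ pl Q j} = univ := by
        ext Q; simp [h]
      rw [this]
      exact MeasurableSet.univ
    · have : {Q : Fin n → E3 | i ≠ j → pl Q i ≠ pl Q j} = {Q | pl Q i = pl Q j}ᶜ := by
        ext Q; simp [h]
      rw [this]
      exact (isClosed_eq (pl_cont i) (pl_cont j)).measurableSet.compl
  · refine MeasurableSet.iInter fun i => MeasurableSet.iInter fun j => ?_
    exact (isClosed_le (dif_cont i j).norm continuous_const).measurableSet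

theorem regA_sub (m : Fin (n + 1) → ℝ) (E R : ℝ) (hR : 0 ≤ R) :
    RegA m E R ⊆ {Q : Fin n → E3 | ‖Q‖ ≤ R} := by
  intro Q hQ
  rw [mem_setOf_eq, pi_norm_le_iff_of_nonneg hR]
  intro k
  have h := hQ.2.1 k.castSucc (Fin.last n)
  unfold pl at h
  rwa [Fin.snoc_castSucc, Fin.snoc_last, sub_zero] at h

/-- the power of the norm, cut off -/
noncomputable def cut (s ρ : ℝ) : E3 → ENNReal :=
  {x : E3 | ‖x‖ ≤ ρ}.indicator (fun x => ENNReal.ofReal (‖x‖ ^ (-s)))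

theorem cut_meas (s ρ : ℝ) : Measurable (cut s ρ) := by
  unfold cut
  refine Measurable.indicator ?_ (isClosed_le continuous_norm continuous_const).measurableSet
  exact (measurable_norm.pow_const (-s)).ennreal_ofReal

theorem upper (hS : SurjStm) (hP : PushStm) (hRad : RadStm) (hW : PtwStm) (hn : 2 ≤ n)
    (m : Fin (n + 1) → ℝ) (hm : ∀ i, 0 < m i) (E : ℝ) (hE : E < 0) (β : ℝ) (hβ0 : 0 ≤ β)
    (hβ : β < 3) (S : Set (Fin n → E3)) (hSm : MeasurableSet S)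
    (hA : ∀ C : ℝ, 0 < C → ∃ A : ℝ, 0 ≤ A ∧ ∀ Q ∈ S, ∀ a b : Fin (n + 1), 0 < ke m E Q →
      0 < ‖pl Q a - pl Q b‖ → ke m E Q ≤ C / ‖pl Q a - pl Q b‖ →
      ke m E Q ^ ((3 * (n : ℝ) - 5) / 2) ≤ A * ‖pl Q a - pl Q b‖ ^ (-β)) :
    ∃ C' : ℝ, 0 ≤ C' ∧ ∀ (ψ : Cfg (n + 1) × Cfg (n + 1) → ℝ)
      (φ : ℝ → Cfg (n + 1) × Cfg (n + 1) → Cfg (n + 1) × Cfg (n + 1)), IsFl m E ψ φ →
      ∀ R : ℝ, 0 < R → lio m E (RegA m E R ∩ S) {x | NonW (Surf m E) φ x} ≤
        ENNReal.ofReal (C' * R ^ (3 * (n : ℝ) - 9 / 2)) := by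
  classical
  obtain ⟨C, r0, hC, hr0, hW⟩ := hW n hn m hm E hE
  obtain ⟨A, hA0, hA⟩ := hA C hC
  obtain ⟨Cβ, hCβ, hCβ'⟩ := hRad β hβ0 hβ
  obtain ⟨Ct, hCt, hCt'⟩ := hRad (3 / 2) (by norm_num) (by norm_num)
  let H : Fin (n + 1) × Fin (n + 1) × Fin (n + 1) × Fin (n + 1) → Prop := fun q =>
    q.1 ≠ q.2.1 ∧ P2 q.1 q.2.1 q.2.2.1 q.2.2.2
  have hch : ∀ q : Fin (n + 1) × Fin (n + 1) × Fin (n + 1) × Fin (n + 1), ∃ D : ℝ, 0 ≤ D ∧
      (H q → ∀ R : ℝ, 0 < R → ∫⁻ Q in {Q : Fin n → E3 | ‖Q‖ ≤ R},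
        cut β r0 (pl Q q.1 - pl Q q.2.1) * cut (3 / 2) R (pl Q q.2.2.1 - pl Q q.2.2.2) ≤
        ENNReal.ofReal (D * R ^ (3 * (n : ℝ) - 9 / 2))) := by
    rintro ⟨a, b, c, d⟩
    by_cases h : H (a, b, c, d)
    · obtain ⟨hab, hcd, h1, h2⟩ : a ≠ b ∧ c ≠ d ∧ ¬(c = a ∧ d = b) ∧ ¬(c = b ∧ d = a) := h
      obtain ⟨V, hV, hVe⟩ := hS n a b c d hab hcd (fun h => h1 ⟨h.1.symm, h.2.symm⟩)
        (fun h => h2 ⟨h.2.symm, h.1.symm⟩)
      obtain ⟨D, hD, hD'⟩ := hP n hn V hV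
      refine ⟨D * ((Cβ * r0 ^ (3 - β)) * Ct), by positivity, fun _ R hR => ?_⟩
      have h3 := hD' R hR (cut β r0) (cut (3 / 2) R) (cut_meas _ _) (cut_meas _ _)
      simp only [hVe] at h3
      refine h3.trans ?_
      have h4 : (∫⁻ x, cut β r0 x) * ∫⁻ y, cut (3 / 2) R y ≤
          ENNReal.ofReal (Cβ * r0 ^ (3 - β)) * ENNReal.ofReal (Ct * R ^ (3 - 3 / 2 : ℝ)) :=
        mul_le_mul' (hCβ' r0 hr0) (hCt' R hR)
      refine (mul_le_mul_right h4 _).trans ?_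
      rw [← ENNReal.ofReal_mul (by positivity), ← ENNReal.ofReal_mul (by positivity)]
      refine ENNReal.ofReal_le_ofReal (le_of_eq ?_)
      have h5 : R ^ (3 * (n : ℝ) - 9 / 2) = R ^ (3 * n - 6) * R ^ (3 - 3 / 2 : ℝ) := by
        rw [← Real.rpow_natCast R (3 * n - 6), ← Real.rpow_add hR]
        congr 1
        rw [Nat.cast_sub (by omega)]
        push_cast
        ring
      rw [h5]
      ring
    · exact ⟨0, le_rfl, fun h' => absurd h' h⟩
  choose D hD0 hD using hch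
  refine ⟨C * A * ∑ q, D q, mul_nonneg (mul_nonneg hC.le hA0) (Finset.sum_nonneg fun q _ => hD0 q),
    fun ψ φ hφ R hR => ?_⟩
  -- the majorant
  let F : Fin (n + 1) × Fin (n + 1) × Fin (n + 1) × Fin (n + 1) → (Fin n → E3) → ENNReal :=
    fun q Q => if H q then ENNReal.ofReal (C * A) *
      (cut β r0 (pl Q q.1 - pl Q q.2.1) * cut (3 / 2) R (pl Q q.2.2.1 - pl Q q.2.2.2)) else 0
  have hFm : ∀ q, Measurable (F q) := by
    intro q
    by_cases h : H q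
    · simp only [F, h, if_true]
      refine Measurable.const_mul (Measurable.mul ?_ ?_) _
      · exact (cut_meas _ _).comp (dif_cont q.1 q.2.1).measurable
      · exact (cut_meas _ _).comp (dif_cont q.2.2.1 q.2.2.2).measurable
    · simp only [F, h, if_false]
      exact measurable_const
  have hpt : ∀ Q ∈ RegA m E R ∩ S, ENNReal.ofReal (ke m E Q ^ ((3 * (n : ℝ) - 2) / 2)) *
      volume (Fib m E {x | NonW (Surf m E) φ x} Q) ≤ ∑ q, F q Q := by
    rintro Q ⟨⟨hQ1, hQ2, hQ3⟩, hQS⟩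
    obtain ⟨a, b, c, d, hab, hP2, h1, h2, h3⟩ := hW ψ φ hφ Q hQ1 hQ3
    have hH : H (a, b, c, d) := ⟨hab, hP2⟩
    refine h3.trans (le_trans ?_ (Finset.single_le_sum (f := fun q => F q Q)
      (fun q _ => zero_le) (Finset.mem_univ (a, b, c, d))))
    have hr : 0 < ‖pl Q a - pl Q b‖ := norm_pos_iff.2 (sub_ne_zero.2 (hQ1 a b hab))
    have h4 := hA Q hQS a b hQ3 hr h2
    simp only [F, hH, if_true]
    have e1 : cut β r0 (pl Q a - pl Q b) = ENNReal.ofReal (‖pl Q a - pl Q b‖ ^ (-β)) := by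
      unfold cut
      rw [indicator_of_mem (show pl Q a - pl Q b ∈ {x : E3 | ‖x‖ ≤ r0} from h1)]
    have e2 : cut (3 / 2) R (pl Q c - pl Q d) =
        ENNReal.ofReal (‖pl Q c - pl Q d‖ ^ (-(3 / 2) : ℝ)) := by
      unfold cut
      rw [indicator_of_mem (show pl Q c - pl Q d ∈ {x : E3 | ‖x‖ ≤ R} from hQ2 c d)]
    rw [e1, e2, ← ENNReal.ofReal_mul (by positivity), ← ENNReal.ofReal_mul (by positivity)]
    refine ENNReal.ofReal_le_ofReal ?_
    calc C * ke m E Q ^ ((3 * (n : ℝ) - 5) / 2) * ‖pl Q c - pl Q d‖ ^ (-(3 / 2) : ℝ)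
        ≤ C * (A * ‖pl Q a - pl Q b‖ ^ (-β)) * ‖pl Q c - pl Q d‖ ^ (-(3 / 2) : ℝ) := by
          gcongr
      _ = _ := by ring
  have h1 : lio m E (RegA m E R ∩ S) {x | NonW (Surf m E) φ x} ≤
      ∫⁻ Q in {Q : Fin n → E3 | ‖Q‖ ≤ R}, ∑ q, F q Q := by
    unfold lio
    refine (setLIntegral_mono' ((regA_meas m E R).inter hSm) hpt).trans ?_
    exact lintegral_mono_set (inter_subset_left.trans (regA_sub m E R hR.le))
  refine h1.trans ?_
  rw [lintegral_finset_sum _ (fun q _ => hFm q)]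
  have h2 : ∀ q, ∫⁻ Q in {Q : Fin n → E3 | ‖Q‖ ≤ R}, F q Q ≤
      ENNReal.ofReal (C * A * (D q * R ^ (3 * (n : ℝ) - 9 / 2))) := by
    intro q
    by_cases h : H q
    · simp only [F, h, if_true]
      have hfm : Measurable fun Q : Fin n → E3 => cut β r0 (pl Q q.1 - pl Q q.2.1) *
          cut (3 / 2) R (pl Q q.2.2.1 - pl Q q.2.2.2) :=
        ((cut_meas _ _).comp (dif_cont _ _).measurable).mul
          ((cut_meas _ _).comp (dif_cont _ _).measurable)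
      rw [lintegral_const_mul _ hfm]
      refine (mul_le_mul_right (hD q h R hR) _).trans (le_of_eq ?_)
      rw [← ENNReal.ofReal_mul (by positivity)]
    · simp only [F, h, if_false, lintegral_zero]
      exact zero_le
  refine (Finset.sum_le_sum fun q _ => h2 q).trans ?_
  rw [← ENNReal.ofReal_sum_of_nonneg (fun q _ => by have := hD0 q; positivity)]
  refine ENNReal.ofReal_le_ofReal (le_of_eq ?_)
  rw [Finset.mul_sum, Finset.sum_mul]
  refine Finset.sum_congr rfl fun q _ => ?_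
  ring

/-- bounded kinetic energy, any number of bodies -/
theorem upper_bounded (hS : SurjStm) (hP : PushStm) (hRad : RadStm) (hW : PtwStm) (hn : 2 ≤ n)
    (m : Fin (n + 1) → ℝ) (hm : ∀ i, 0 < m i) (E : ℝ) (hE : E < 0) (K0 : ℝ) :
    ∃ C' : ℝ, 0 ≤ C' ∧ ∀ (ψ : Cfg (n + 1) × Cfg (n + 1) → ℝ)
      (φ : ℝ → Cfg (n + 1) × Cfg (n + 1) → Cfg (n + 1) × Cfg (n + 1)), IsFl m E ψ φ →
      ∀ R : ℝ, 0 < R → lio m E (RegA m E R ∩ {Q | ke m E Q ≤ K0})
        {x | NonW (Surf m E) φ x} ≤ ENNReal.ofReal (C' * R ^ (3 * (n : ℝ) - 9 / 2)) := by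
  have hn' : (2 : ℝ) ≤ n := by exact_mod_cast hn
  refine upper hS hP hRad hW hn m hm E hE 0 le_rfl (by norm_num) _
    (measurableSet_le (ke_meas m E) measurable_const) fun C _ =>
      ⟨max K0 0 ^ ((3 * (n : ℝ) - 5) / 2), by positivity, fun Q hQ a b h1 _ _ => ?_⟩
  rw [neg_zero, Real.rpow_zero, mul_one]
  exact Real.rpow_le_rpow h1.le (le_max_of_le_left hQ) (by linarith)

/-- three or four bodies -/
theorem upper_all (hS : SurjStm) (hP : PushStm) (hRad : RadStm) (hW : PtwStm) (hn : 2 ≤ n)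
    (hn3 : n ≤ 3) (m : Fin (n + 1) → ℝ) (hm : ∀ i, 0 < m i) (E : ℝ) (hE : E < 0) :
    ∃ C' : ℝ, 0 ≤ C' ∧ ∀ (ψ : Cfg (n + 1) × Cfg (n + 1) → ℝ)
      (φ : ℝ → Cfg (n + 1) × Cfg (n + 1) → Cfg (n + 1) × Cfg (n + 1)), IsFl m E ψ φ →
      ∀ R : ℝ, 0 < R → lio m E (RegA m E R)
        {x | NonW (Surf m E) φ x} ≤ ENNReal.ofReal (C' * R ^ (3 * (n : ℝ) - 9 / 2)) := by
  have hn' : (2 : ℝ) ≤ n := by exact_mod_cast hn
  have hn3' : (n : ℝ) ≤ 3 := by exact_mod_cast hn3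
  have h := upper hS hP hRad hW hn m hm E hE ((3 * (n : ℝ) - 5) / 2) (by linarith) (by linarith)
    univ MeasurableSet.univ fun C hC =>
      ⟨C ^ ((3 * (n : ℝ) - 5) / 2), by positivity, fun Q _ a b h1 h2 h3 => by
        rw [Real.rpow_neg h2.le, ← div_eq_mul_inv, ← Real.div_rpow hC.le h2.le]
        exact Real.rpow_le_rpow h1.le h3 (by linarith)⟩
  simpa only [inter_univ] using h

end Run7.h852.DN
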