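import Pool.Agent.Run7.h852.DN.Fin

set_option autoImplicit false

/-! Project DN (MP_70f7a7_an): three or four bodies without a bound of the kinetic energy. -/

namespace Run7.h852.DN

open MeasureTheory Set
open Pool.Agent.Y516.NW (E3 Cfg Surf NonW IsFl mom kin pot P2)

variable {n : ℕ}

theorem lio_mono (m : Fin (n + 1) → ℝ) (E : ℝ) (B B' : Set (Fin n → E3)) (h : B ⊆ B')
    (A : Set (Cfg (n + 1) × Cfg (n + 1))) : lio m E B A ≤ lio m E B' A :=
  lintegral_mono_set h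

theorem density_all (hS : SurjStm) (hP : PushStm) (hRad : RadStm) (hW : PtwStm) (hL : LowStm)
    (hn : 2 ≤ n) (hn3 : n ≤ 3) (m : Fin (n + 1) → ℝ) (hm : ∀ i, 0 < m i) (E : ℝ) (hE : E < 0) :
    ∃ C R1 : ℝ, 0 < C ∧ 0 < R1 ∧
      ∀ (ψ : Cfg (n + 1) × Cfg (n + 1) → ℝ)
        (φ : ℝ → Cfg (n + 1) × Cfg (n + 1) → Cfg (n + 1) × Cfg (n + 1)), IsFl m E ψ φ →
        (∀ R : ℝ, 0 < R → lio m E (RegA m E R) {x | NonW (Surf m E) φ x} ≤
          ENNReal.ofReal (C * R ^ (3 * (n : ℝ) - 9 / 2))) ∧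
        ∀ R : ℝ, R1 ≤ R → lio m E (RegA m E R) {x | NonW (Surf m E) φ x} ≤
          ENNReal.ofReal (C * R ^ (-(3 / 2) : ℝ)) * lio m E (RegA m E R) (Surf m E) := by
  obtain ⟨C, hC, hup⟩ := upper_all hS hP hRad hW hn hn3 m hm E hE
  obtain ⟨c, R1, hc, hR1, hlow⟩ := hL n hn m hm E hE 1 one_pos
  refine ⟨C + C / c + 1, R1, by positivity, hR1, fun ψ φ hφ => ⟨fun R hR => ?_, fun R hR => ?_⟩⟩
  · refine (hup ψ φ hφ R hR).trans (ENNReal.ofReal_le_ofReal ?_)
    refine mul_le_mul_of_nonneg_right ?_ (by positivity)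
    have : 0 ≤ C / c := by positivity
    linarith
  · have hR0 : 0 < R := hR1.trans_le hR
    have hlow' : ENNReal.ofReal (c * R ^ (3 * (n - 1))) ≤ lio m E (RegA m E R) (Surf m E) :=
      (hlow R hR).trans (lio_mono m E _ _ inter_subset_left _)
    refine (hup ψ φ hφ R hR0).trans (le_trans ?_ (mul_le_mul_right hlow' _))
    rw [← ENNReal.ofReal_mul (by positivity)]
    refine ENNReal.ofReal_le_ofReal ?_
    have e : R ^ (3 * (n : ℝ) - 9 / 2) = R ^ (-(3 / 2) : ℝ) * R ^ (3 * (n - 1)) := by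
      rw [← Real.rpow_natCast R (3 * (n - 1)), ← Real.rpow_add hR0]
      congr 1
      rw [Nat.cast_mul, Nat.cast_sub (by omega)]
      push_cast
      ring
    rw [e]
    have h2 : 0 ≤ R ^ (-(3 / 2) : ℝ) * R ^ (3 * (n - 1)) := by positivity
    have h3 : C ≤ (C + C / c + 1) * c := by
      have : C / c * c = C := div_mul_cancel₀ _ hc.ne'
      nlinarith [mul_nonneg hC hc.le]
    calc C * (R ^ (-(3 / 2) : ℝ) * R ^ (3 * (n - 1))) ≤
          ((C + C / c + 1) * c) * (R ^ (-(3 / 2) : ℝ) * R ^ (3 * (n - 1))) :=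
          mul_le_mul_of_nonneg_right h3 h2
      _ = _ := by ring

end Run7.h852.DN
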