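import Pool.Agent.Run7.h852.DN.Asm

set_option autoImplicit false

/-! Project DN (MP_70f7a7_an): the nonwandering set has density zero. -/

namespace Run7.h852.DN

open MeasureTheory Set
open Pool.Agent.Y516.NW (E3 Cfg Surf NonW IsFl mom kin pot P2)

variable {n : ℕ}

theorem density (hS : SurjStm) (hP : PushStm) (hRad : RadStm) (hW : PtwStm) (hL : LowStm)
    (hn : 2 ≤ n) (m : Fin (n + 1) → ℝ) (hm : ∀ i, 0 < m i) (E : ℝ) (hE : E < 0) (K0 : ℝ)
    (hK0 : 0 < K0) :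
    ∃ C c R1 : ℝ, 0 < C ∧ 0 < c ∧ 0 < R1 ∧ ∀ R : ℝ, R1 ≤ R →
      ENNReal.ofReal (c * R ^ (3 * (n - 1))) ≤
        lio m E (RegA m E R ∩ {Q | ke m E Q ≤ K0}) (Surf m E) ∧
      ∀ (ψ : Cfg (n + 1) × Cfg (n + 1) → ℝ)
        (φ : ℝ → Cfg (n + 1) × Cfg (n + 1) → Cfg (n + 1) × Cfg (n + 1)), IsFl m E ψ φ →
        lio m E (RegA m E R ∩ {Q | ke m E Q ≤ K0}) {x | NonW (Surf m E) φ x} ≤
          ENNReal.ofReal (C * R ^ (3 * (n : ℝ) - 9 / 2)) ∧
        lio m E (RegA m E R ∩ {Q | ke m E Q ≤ K0}) {x | NonW (Surf m E) φ x} ≤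
          ENNReal.ofReal (C * R ^ (-(3 / 2) : ℝ)) *
            lio m E (RegA m E R ∩ {Q | ke m E Q ≤ K0}) (Surf m E) := by
  obtain ⟨C, hC, hup⟩ := upper_bounded hS hP hRad hW hn m hm E hE K0
  obtain ⟨c, R1, hc, hR1, hlow⟩ := hL n hn m hm E hE K0 hK0
  refine ⟨C + C / c + 1, c, R1, by positivity, hc, hR1, fun R hR => ⟨hlow R hR,
    fun ψ φ hφ => ?_⟩⟩
  have hR0 : 0 < R := hR1.trans_le hR
  have h1 := hup ψ φ hφ R hR0
  refine ⟨h1.trans (ENNReal.ofReal_le_ofReal ?_), ?_⟩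
  · refine mul_le_mul_of_nonneg_right ?_ (by positivity)
    have : 0 ≤ C / c := by positivity
    linarith
  · refine h1.trans (le_trans ?_ (mul_le_mul_right (hlow R hR) _))
    rw [← ENNReal.ofReal_mul (by positivity)]
    refine ENNReal.ofReal_le_ofReal ?_
    have e : R ^ (3 * (n : ℝ) - 9 / 2) = R ^ (-(3 / 2) : ℝ) * R ^ (3 * (n - 1)) := by
      rw [← Real.rpow_natCast R (3 * (n - 1)), ← Real.rpow_add hR0]
      congr 1
      rw [Nat.cast_mul, Nat.cast_sub (by omega)]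
      push_cast
      ring
    rw [e]
    have h2 : 0 ≤ R ^ (-(3 / 2) : ℝ) * R ^ (3 * (n - 1)) := by positivity
    have h3 : C ≤ (C + C / c + 1) * c := by
      have : C / c * c = C := div_mul_cancel₀ _ hc.ne'
      nlinarith [mul_nonneg hC hc.le]
    calc C * (R ^ (-(3 / 2) : ℝ) * R ^ (3 * (n - 1))) ≤
          ((C + C / c + 1) * c) * (R ^ (-(3 / 2) : ℝ) * R ^ (3 * (n - 1))) :=
          mul_le_mul_of_nonneg_right h3 h2
      _ = _ := by ring

end Run7.h852.DN
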