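import Pool.Agent.N775.NW.Main

set_option autoImplicit false

/-!
# Project DN (MP_70f7a7_an): the nonwandering set has density zero. Statements of the parts.

Coordinates of the reduced `(n + 1)`-body problem: `Q : Fin n → E3` are the positions relative to the
last body, `P : Fin n → E3` the momenta of the first `n` bodies (the momentum of the last one is
`-∑ P`); these are canonical coordinates. On the energy surface `H = E` over `Q` the kinetic energy is
`ke m E Q = U + E`, and Liouville measure is, up to a constant factor,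
`∫ dQ ke ^ ((3 n - 2) / 2) · volume {P | kin P ≤ 1, (Q, P scaled to kinetic energy ke) ∈ A}`.
-/

namespace Run7.h852.DN

open MeasureTheory Set
open Pool.Agent.Y516.NW (E3 Cfg Surf NonW IsFl mom kin pot P2)

/-- positions of the `n + 1` bodies, the last one at the origin -/
noncomputable def pl {n : ℕ} (Q : Fin n → E3) : Cfg (n + 1) := Fin.snoc Q 0

/-- configuration with centre of mass `0` -/
noncomputable def conf {n : ℕ} (m : Fin (n + 1) → ℝ) (Q : Fin n → E3) : Cfg (n + 1) :=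
  fun i => pl Q i - (∑ k, m k)⁻¹ • ∑ k, m k • pl Q k

/-- kinetic energy on `H = E` over the configuration -/
noncomputable def ke {n : ℕ} (m : Fin (n + 1) → ℝ) (E : ℝ) (Q : Fin n → E3) : ℝ :=
  pot m (conf m Q) + E

/-- no collisions, distances at most `R`, `H = E` possible -/
def RegA {n : ℕ} (m : Fin (n + 1) → ℝ) (E R : ℝ) : Set (Fin n → E3) :=
  {Q | (∀ i j, i ≠ j → pl Q i ≠ pl Q j) ∧ (∀ i j, ‖pl Q i - pl Q j‖ ≤ R) ∧ 0 < ke m E Q}

/-- momenta for which the phase point belongs to `A` -/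
def Fib {n : ℕ} (m : Fin (n + 1) → ℝ) (E : ℝ) (A : Set (Cfg (n + 1) × Cfg (n + 1)))
    (Q : Fin n → E3) : Set (Fin n → E3) :=
  {P | kin m (mom P) ≤ 1 ∧ (conf m Q, Real.sqrt (ke m E Q / kin m (mom P)) • mom P) ∈ A}

/-- Liouville measure of `A ∩ {H = E}` over the configurations in `B` -/
noncomputable def lio {n : ℕ} (m : Fin (n + 1) → ℝ) (E : ℝ) (B : Set (Fin n → E3))
    (A : Set (Cfg (n + 1) × Cfg (n + 1))) : ENNReal :=
  ∫⁻ Q in B, ENNReal.ofReal (ke m E Q ^ ((3 * (n : ℝ) - 2) / 2)) * volume (Fib m E A Q)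

/-- DN-SURJ: the difference vectors of two different pairs of bodies are independent.
Proof. Some body of `{i, j}` is not in `{k, l}` and conversely; prescribe `pl Q k - pl Q l` and then
`pl Q i - pl Q j` by positions `s : Fin (n + 1) → E3` of all bodies and put `Q k = s k - s n`. -/
def SurjStm : Prop :=
  ∀ (n : ℕ) (i j k l : Fin (n + 1)), i ≠ j → k ≠ l → ¬(i = k ∧ j = l) → ¬(i = l ∧ j = k) →
    ∃ V : (Fin n → E3) →ₗ[ℝ] E3 × E3, Function.Surjective V ∧
      ∀ Q, V Q = (pl Q i - pl Q j, pl Q k - pl Q l)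

/-- DN-PUSH: image of Lebesgue measure on a large ball under a surjective linear map.
Proof. `Pool.Agent.N775.NW.push_gen` with `R = 1` and scaling (`Q = R P`, volume factor `R ^ (3 n)`,
on `E3 × E3` factor `R ^ (-6)`) gives `volume {‖Q‖ ≤ R, V Q ∈ A} ≤ C R ^ (3 n - 6) volume A` for all
`A`, i.e. an inequality of measures; integrate (`lintegral_map`, `lintegral_mono'`,
`lintegral_prod_mul`). -/
def PushStm : Prop :=
  ∀ n : ℕ, 2 ≤ n → ∀ V : (Fin n → E3) →ₗ[ℝ] E3 × E3, Function.Surjective V →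
    ∃ C : ℝ, 0 ≤ C ∧ ∀ R : ℝ, 0 < R → ∀ f g : E3 → ENNReal, Measurable f → Measurable g →
      ∫⁻ Q in {Q : Fin n → E3 | ‖Q‖ ≤ R}, f (V Q).1 * g (V Q).2 ≤
        ENNReal.ofReal (C * R ^ (3 * n - 6)) * ((∫⁻ x, f x) * ∫⁻ y, g y)

/-- DN-RAD: the integral of `‖x‖ ^ (-s)` over a ball of `R^3` (scaling; finite for `s < 3`, e.g. by
the dyadic shells `2 ^ (-k - 1) < ‖x‖ ≤ 2 ^ (-k)` or by polar coordinates). -/
def RadStm : Prop :=
  ∀ s : ℝ, 0 ≤ s → s < 3 → ∃ C : ℝ, 0 ≤ C ∧ ∀ ρ : ℝ, 0 < ρ →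
    ∫⁻ x : E3, {x : E3 | ‖x‖ ≤ ρ}.indicator (fun x => ENNReal.ofReal (‖x‖ ^ (-s))) x ≤
      ENNReal.ofReal (C * ρ ^ (3 - s))

/-- DN-PTW: pointwise bound of the density of the nonwandering set.
Proof. `a, b` a closest pair, `c, d` a closest one among the other pairs (`P2 a b c d`),
`δ = ‖pl Q c - pl Q d‖`. The differences of `conf m Q` are those of `pl Q`. By
`Pool.Agent.N775.NW.main_neg` (`E ≤ 0`) the volume of the fibre is at most
`√(C / (δ ke)) ^ 3 · volume {kin ≤ 1}`, and `volume {kin ≤ 1} < ∞` by `Pool.Agent.Y317.NW.ball`;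
`√(C / (δ ke)) ^ 3 = C ^ (3/2) δ ^ (-3/2) ke ^ (-3/2)`. From `|E| < pot ≤ (∑ m)^2 / (2 r)`,
`r = ‖pl Q a - pl Q b‖`, one gets `r ≤ r0` and `ke ≤ C / r`. -/
def PtwStm : Prop :=
  ∀ n : ℕ, 2 ≤ n → ∀ m : Fin (n + 1) → ℝ, (∀ i, 0 < m i) → ∀ E : ℝ, E < 0 →
    ∃ C r0 : ℝ, 0 < C ∧ 0 < r0 ∧ ∀ (ψ : Cfg (n + 1) × Cfg (n + 1) → ℝ)
      (φ : ℝ → Cfg (n + 1) × Cfg (n + 1) → Cfg (n + 1) × Cfg (n + 1)), IsFl m E ψ φ →
    ∀ Q : Fin n → E3, (∀ i j, i ≠ j → pl Q i ≠ pl Q j) → 0 < ke m E Q →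
    ∃ a b c d : Fin (n + 1), a ≠ b ∧ P2 a b c d ∧ ‖pl Q a - pl Q b‖ ≤ r0 ∧
      ke m E Q ≤ C / ‖pl Q a - pl Q b‖ ∧
      ENNReal.ofReal (ke m E Q ^ ((3 * (n : ℝ) - 2) / 2)) *
          volume (Fib m E {x | NonW (Surf m E) φ x} Q) ≤
        ENNReal.ofReal (C * ke m E Q ^ ((3 * (n : ℝ) - 5) / 2) *
          ‖pl Q c - pl Q d‖ ^ (-(3 / 2) : ℝ))

/-- DN-LOW: the measure of the energy surface over configurations with distances `≤ R` and kinetic
energy `≤ K0`, from below.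
Proof. Let body `0` be at a distance `r` from the last body such that
`K0 / 4 ≤ m_0 m_n / r - |E| ≤ K0 / 2`, and the bodies `k = 1, …, n - 1` in balls of radius `ρ R`
around points `R p_k` which are far (`≥ 4 ρ R`) from each other and from the origin, `‖p_k‖ ≤ 1 / 4`
(`ρ > 0` and the `p_k` depend on `n` only). For large `R` the other terms of the potential are at most
`K0 / 4`. This set of `Q` is a product, of volume `c R ^ (3 (n - 1))` (`volume_pi`,
`Measure.pi_pi`). For `A = Surf m E` the fibre is `{kin ≤ 1}` up to the point `P = 0`, and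
`volume {kin ≤ 1} > 0` by `Pool.Agent.Y317.NW.ball`. -/
def LowStm : Prop :=
  ∀ n : ℕ, 2 ≤ n → ∀ m : Fin (n + 1) → ℝ, (∀ i, 0 < m i) → ∀ E : ℝ, E < 0 → ∀ K0 : ℝ, 0 < K0 →
    ∃ c R1 : ℝ, 0 < c ∧ 0 < R1 ∧ ∀ R : ℝ, R1 ≤ R →
      ENNReal.ofReal (c * R ^ (3 * (n - 1))) ≤
        lio m E (RegA m E R ∩ {Q | ke m E Q ≤ K0}) (Surf m E)

/-- DN-INF: for at least four bodies the energy surface has infinite measure over the configurations
with distances `≤ R`, for every `R > 0`.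
Proof. Body `0` in the ball of radius `ε` around the last body (the origin), the others in small
balls around fixed different points of norm `< R / 2` (`≠ 0`): there `ke ≥ c / ‖Q 0‖` and
`(3 n - 2) / 2 ≥ 7 / 2 > 3`, and the integral of `‖x‖ ^ (-7/2)` over a ball of `R^3` is infinite
(shells `2 ^ (-k - 1) < ‖x‖ ≤ 2 ^ (-k)`: each contributes at least a positive constant). -/
def InfStm : Prop :=
  ∀ n : ℕ, 3 ≤ n → ∀ m : Fin (n + 1) → ℝ, (∀ i, 0 < m i) → ∀ E : ℝ, E < 0 → ∀ R : ℝ, 0 < R →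
    lio m E (RegA m E R) (Surf m E) = ⊤

end Run7.h852.DN
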